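import Mathlib
import Pool.Agent.MP_a43263_nt.JR.All2
import Pool.Agent.MP_a43263_nt.JC.Pres

namespace Pool.Agent.Results.MP_a43263_nt.EveryRank

open Pool.Agent.MP_a43263_nt JP Filter Finset Polynomial

/-- The polynomial whose roots are the values at `v = (s, t)` of the binary quadratic forms
`a i * s ^ 2 + b i * s * t + c i * t ^ 2`. -/
noncomputable def fib {n : ℕ} (a b c : Fin n → ℤ) (v : ℤ × ℤ) : ℚ[X] :=
  ∏ i, (X - C ((a i * v.1 ^ 2 + b i * v.1 * v.2 + c i * v.2 ^ 2 : ℤ) : ℚ))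

/-- The additive map `φ` of geometric points commutes with a subgroup of finite index of the
absolute Galois group. -/
def Equi (f f' : ℚ[X]) (φ : Jac f (AlgebraicClosure ℚ) →+ Jac f' (AlgebraicClosure ℚ)) : Prop :=
  ∃ U : Subgroup (AlgebraicClosure ℚ ≃ₐ[ℚ] AlgebraicClosure ℚ), U.FiniteIndex ∧
    ∀ σ ∈ U, ∀ P, φ (jac f σ P) = jac f' σ (φ P)

/-- Every map `Equi f f` is multiplication by an integer on the points killed by `2 ^ k`. -/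
def Scalar (f : ℚ[X]) : Prop :=
  ∀ φ, Equi f f φ → ∀ k : ℕ, ∃ n : ℤ, ∀ P, 2 ^ k • P = 0 → φ P = n • P

/-- Every map `Equi f f'` vanishes on the points killed by a power of two. -/
def Orth (f f' : ℚ[X]) : Prop :=
  ∀ φ, Equi f f' φ → ∀ (k : ℕ) (P : Jac f (AlgebraicClosure ℚ)), 2 ^ k • P = 0 → φ P = 0

/-- The group of rational points is finitely generated of rank `r` and the Tate-Shafarevich group
has no nonzero element killed by a power of two. -/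
def RankSha (r : ℕ) (f : ℚ[X]) : Prop :=
  AddGroup.FG (JQ f) ∧ Module.rank ℤ (JQ f) = r ∧ ∀ k : ℕ, ∀ x ∈ JSha f, 2 ^ k • x = 0 → x = 0

theorem result (r g : ℕ) (hg : 1 ≤ g) (h : r ≤ 2 ∨ 36 ^ (r - 1) ≤ g) :
    ∃ (a b c : Fin (2 * g + 1) → ℤ) (ε : ℝ), 0 < ε ∧ ∀ᶠ H : ℕ in atTop,
      ∃ T ⊆ Icc (-H : ℤ) H ×ˢ Icc (-H : ℤ) H, ε * (H : ℝ) ^ 2 ≤ T.card ∧
        (∀ v ∈ T, IsCoprime v.1 v.2 ∧ (fib a b c v).Separable ∧ RankSha r (fib a b c v) ∧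
          Scalar (fib a b c v)) ∧
        ∀ v ∈ T, ∀ w ∈ T, v ≠ w → Orth (fib a b c v) (fib a b c w) := by
  obtain ⟨c, p, q, hF⟩ := JR.exAll g r hg h
  obtain ⟨ε, h0, h1⟩ := JR.main2 hF
  have e : fib (fun i => c * (p 0 ^ 2 - p i ^ 2)) (fun i => c * (2 * p 0 * q 0 - 2 * p i * q i))
      (fun i => c * (q 0 ^ 2 - q i ^ 2)) = (JC.fam c p q).fibre := by
    funext v
    refine prod_congr rfl fun i _ => ?_
    rw [JC.Zar.fam_a, JC.Zar.rr, JC.Zar.rr]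
    congr 2
    push_cast
    ring
  refine ⟨fun i => c * (p 0 ^ 2 - p i ^ 2), fun i => c * (2 * p 0 * q 0 - 2 * p i * q i),
    fun i => c * (q 0 ^ 2 - q i ^ 2), ε, h0, ?_⟩
  rw [e]
  refine h1.mono fun H ⟨T, h2, h3, h4, h5⟩ => ⟨T, h2, h3, fun v hv => ?_,
    fun v hv w hw c φ ⟨U, hU, hφ⟩ => h5 v hv w hw c U hU φ hφ⟩
  obtain ⟨k0, k1, k2, k3, k4, k5⟩ := h4 v hv
  exact ⟨k0, k1, ⟨k2, k3, k4⟩, fun φ ⟨U, hU, hφ⟩ => k5 U hU φ hφ⟩

end Pool.Agent.Results.MP_a43263_nt.EveryRank
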