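import Mathlib
import Pool.Agent.MP_a43263_nt.RH.OneAll
import Pool.Agent.MP_a43263_nt.RH.Ex

namespace Pool.Agent.Results.MP_a43263_nt.GenericRankPositiveProportion

open Pool.Agent.MP_a43263_nt RG RG.Surf Filter Finset Classical

variable {n : ℕ}

/-- The degree is even and positive, the forms are pairwise not proportional, `D₀ = D₁ - D₂`. -/
structure Basic (F : Surf n) : Prop where
  ev : Even n
  pos : 0 < n
  c0 : ∀ i, F.c i ≠ 0
  ne : ∀ j k, j ≠ k → F.L j (F.root k) ≠ 0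
  sum : ∀ v : ℚ × ℚ, F.D 0 v = F.D 1 v - F.D 2 v

/-- Every class that satisfies the residue conditions has a point over `ℚ(t)`. -/
def AllSol (F : Surf n) : Prop :=
  ∀ u y, F.InS u y → Cover (F.D 1 gp) (F.D 2 gp) (F.del u y 2 gp) (F.del u y 1 gp)

/-- The point `v` is primitive and the value of each form has a prime of odd multiplicity that
divides no constant and no resultant. -/
def Priv (F : Surf n) (v : ℤ × ℤ) : Prop :=
  IsCoprime v.1 v.2 ∧ ∀ j, ∃ p : ℕ, p.Prime ∧ Odd (padicValRat p (F.L j ((v.1 : ℚ), (v.2 : ℚ)))) ∧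
    (∀ i, ¬(p : ℤ) ∣ F.c i) ∧ ∀ k l, k ≠ l → padicValRat p (F.L k (F.root l)) = 0

theorem result :
    (∀ (n : ℕ) (F : Surf n), Basic F → ∃ r : ℕ, Module.rank ℤ F.gen.toAffine.Point = r ∧
      ((AllSol F ∨ ∃ v, Priv F v ∧ Module.rank ℤ (Pt (F.fibre v) ℚ) ≤ r ∧
          ∀ x ∈ Sha (F.fibre v), 2 • x = 0 → x = 0) →
        ∃ c : ℝ, 0 < c ∧ ∀ᶠ H : ℕ in atTop, ∃ T ⊆ Icc (-H : ℤ) H ×ˢ Icc (-H : ℤ) H,
          c * (H : ℝ) ^ 2 ≤ T.card ∧
          (∀ v ∈ T, IsCoprime v.1 v.2 ∧ (F.fibre v).IsElliptic ∧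
            Module.rank ℤ (Pt (F.fibre v) ℚ) = r ∧
            ∀ k : ℕ, ∀ x ∈ Sha (F.fibre v), 2 ^ k • x = 0 → x = 0) ∧
          ∀ v ∈ T, ∀ w ∈ T, ∀ [(F.fibre v).IsElliptic] [(F.fibre w).IsElliptic],
            (F.fibre v).j = (F.fibre w).j → v = w)) ∧
    ∀ r ≤ 5, ∃ (n : ℕ) (F : Surf n), Basic F ∧ AllSol F ∧
      Module.rank ℤ F.gen.toAffine.Point = (r : ℕ) := by
  constructor
  · intro n F hF
    have h0 : RH.Hyp0 F := ⟨hF.ev, hF.pos, hF.c0, hF.ne, hF.sum⟩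
    obtain ⟨r, hr, hc⟩ := RH.gen3All n F h0
    refine ⟨r, hr, ?_⟩
    rintro (h | ⟨v, h1, h2, h3⟩)
    · obtain ⟨v, p, q⟩ := RH.exv n F h0
      exact RH.main3 n r F v ⟨h0, p, q, hc, fun u y hu _ => h u y hu⟩
    · exact RH.main3 n r F v (RH.oneAll n r F v h0 hc h1 h2 h3)
  · intro r hr
    obtain ⟨n, F, h⟩ := RH.examples2 r hr
    have hF : F.CondD := ⟨h.ev, by have := RH.FIN.two h; omega, h.c0, h.ne, h.sum, h.sol⟩
    obtain ⟨r', hr', hc⟩ := RH.genAll n F hF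
    have : r' = r := by
      have := Nat.pow_right_injective le_rfl (hc.symm.trans h.card)
      omega
    exact ⟨n, F, ⟨hF.ev, hF.pos, hF.c0, hF.ne, hF.sum⟩, hF.sol, this ▸ hr'⟩

end Pool.Agent.Results.MP_a43263_nt.GenericRankPositiveProportion
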